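import Pool.Agent.Helper2.EC_C.Goals

/-!
# MP_ecc237_nt, Part C, packet B1
-/

set_option autoImplicit false

namespace ECC.PkB1

/-- the case `q ≥ 0` -/
theorem pos (b2 : G_B2) (c18 : G_C18) (q : ℝ) (hq0 : 0 ≤ q) (hq : |q| < 1) :
    bS q = (2 * aS (q ^ 2) - aS q) ^ 2 * ((aS q + aS (q ^ 2)) / 2) := by
  have hs1 : |Real.sqrt q| < 1 := by
    rw [abs_of_nonneg (Real.sqrt_nonneg q)]
    rw [abs_of_nonneg hq0] at hq
    exact (Real.sqrt_lt' one_pos).2 (by rwa [one_pow])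
  have hs2 : Real.sqrt q ^ 2 = q := Real.sq_sqrt hq0
  have hs4 : Real.sqrt q ^ 4 = q ^ 2 := by
    have e : Real.sqrt q ^ 4 = (Real.sqrt q ^ 2) ^ 2 := by ring
    rw [e, hs2]
  have h1 := b2 (Real.sqrt q) hs1
  have h2 := c18 (Real.sqrt q) hs1
  unfold AA BB at h1
  rw [hs2] at h1 h2
  rw [hs4] at h2
  linear_combination h1 - (aS (Real.sqrt q) + 2 * aS (q ^ 2)) / 4 * h2

theorem b1 (par : G_PAR) (b2 : G_B2) (c18 : G_C18) : G_B1 := by
  intro q hq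
  unfold AA BB
  rcases le_or_gt 0 q with h0 | h0
  · exact pos b2 c18 q h0 hq
  · obtain ⟨r, rfl⟩ : ∃ r : ℝ, q = -r := ⟨-q, by ring⟩
    have hr0 : 0 ≤ r := by linarith
    rw [abs_neg] at hq
    have hr2 : |r ^ 2| < 1 := by
      rw [abs_pow]
      exact pow_lt_one₀ (abs_nonneg r) hq two_ne_zero
    have h1 := pos b2 c18 r hr0 hq
    have h2 := pos b2 c18 (r ^ 2) (by positivity) hr2
    have h3 := b2 (r ^ 2) hr2
    have h4 := c18 r hq
    obtain ⟨h5, h6, -⟩ := par r hq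
    have e4 : (r ^ 2) ^ 2 = r ^ 4 := by ring
    have e2 : (-r) ^ 2 = r ^ 2 := by ring
    unfold AA BB at h3
    rw [e4] at h2 h3
    rw [e2, h5, h6]
    linear_combination -h1 - 6 * h2 + 8 * h3 + 3 * (aS (r ^ 2) - aS (r ^ 4)) * h4

end ECC.PkB1
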