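import Pool.Agent.Helper2.EC_C.Goals

/-!
# MP_ecc237_nt, Part C, packet FT
-/

set_option autoImplicit false

namespace ECC.PkFT

open EC237

theorem ft (f_ : G_F) (at_ : G_AT) : G_FT := by
  intro y hy
  rw [f_ y hy, f_ (1 / (6 * y)) (by positivity)]
  have hy0 : y ≠ 0 := hy.ne'
  have e1 : Real.exp (-(2 * Real.pi * (1 / (6 * y)))) =
      Real.exp (-(2 * Real.pi / (3 * (2 * y)))) := by
    congr 1
    field_simp
    ring
  have e2 : Real.exp (-(2 * Real.pi * (1 / (6 * y)))) ^ 2 =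
      Real.exp (-(2 * Real.pi / (3 * y))) := by
    rw [← Real.exp_nat_mul]
    congr 1
    push_cast
    field_simp
    ring
  have e3 : Real.exp (-(2 * Real.pi * (2 * y))) = Real.exp (-(2 * Real.pi * y)) ^ 2 := by
    rw [← Real.exp_nat_mul]
    congr 1
    push_cast
    ring
  have h1 := at_ (2 * y) (by positivity)
  have h2 := at_ y hy
  rw [← e1, e3] at h1
  rw [← e2] at h2
  unfold AA BB CC DD
  rw [h1, h2]
  have h3 : Real.sqrt 3 ^ 2 = 3 := Real.sq_sqrt (by norm_num)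
  have h4 : Real.sqrt 3 ^ 4 = 9 := by
    have : Real.sqrt 3 ^ 4 = (Real.sqrt 3 ^ 2) ^ 2 := by ring
    rw [this, h3]
    norm_num
  ring_nf
  rw [h4]
  ring

end ECC.PkFT
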